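import Pool.Agent.H46.CH.AT

/-!
# Threshold and period; finite bases; selection of a subset; compatible numbers
-/

set_option autoImplicit false

namespace Pool.Agent.H76.CH

open Classical Pool.Agent.H8.VR Pool.Agent.H69.VR Pool.Agent.H46.CH

/-- (PD) finite congruences of the numbers have a threshold and a period -/
theorem pf_PD : Pool.Agent.H46.CH.T_PD := by
  intro C _ K
  obtain ⟨i, j, hij, h⟩ := Finite.exists_ne_map_eq_of_infinite K.cp
  wlog hlt : i < j generalizing i j
  · exact this j i hij.symm h.symm (by omega)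
  refine ⟨i, j - i, by omega, fun x hx => ?_⟩
  obtain ⟨z, rfl⟩ := Nat.exists_eq_add_of_le hx
  have e1 : i + z + (j - i) = j + z := by omega
  rw [e1, K.cp_add, K.cp_add, h]

/-- (BS) finite bases -/
theorem pf_BS : Pool.Agent.H46.CH.T_BS := by
  intro α r hr S
  by_contra hcon
  push Not at hcon
  obtain ⟨f, hf1, hf2⟩ := exists_seq_of_forall_finset_exists (fun x => x ∈ S)
    (fun x y => ¬ r x y) (fun s hs => by
      obtain ⟨y, hy, hy2⟩ := hcon s hs
      exact ⟨y, hy, hy2⟩)
  obtain ⟨m, n, hmn, h⟩ := hr f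
  exact hf2 m n hmn h

/-- (SS) selection of a subset with prescribed numbers -/
theorem pf_SS : Pool.Agent.H46.CH.T_SS := by
  intro X ι _ t a U h
  have h1 : ∀ σ, ∃ F : Finset X, F ⊆ Finset.univ.filter (fun x => t x = σ) ∧ F.card = U σ := by
    intro σ
    apply Finset.exists_subset_card_eq
    have := h σ
    unfold num at this
    rw [← this, Pi.add_apply]
    omega
  choose F hF1 hF2 using h1
  have hE : ∀ σ, (num fun x => x ∈ {x | x ∈ F (t x)} ∧ t x = σ) = U σ := by
    intro σ
    rw [← hF2 σ]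
    unfold num
    congr 1
    ext x
    simp only [Set.mem_ofPred_eq, Finset.mem_filter, Finset.mem_univ, true_and]
    constructor
    · rintro ⟨h2, rfl⟩
      exact h2
    · intro h2
      have h3 := hF1 σ h2
      rw [Finset.mem_filter] at h3
      exact ⟨by rw [h3.2]; exact h2, h3.2⟩
  refine ⟨{x | x ∈ F (t x)}, fun σ => ?_, hE⟩
  have h2 := hE σ
  have h3 := h σ
  have h4 : (num fun x => t x = σ) = (num fun x => x ∉ {x | x ∈ F (t x)} ∧ t x = σ) +
      (num fun x => x ∈ {x | x ∈ F (t x)} ∧ t x = σ) := by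
    unfold num
    rw [← Finset.card_union_of_disjoint]
    · congr 1
      ext x
      simp only [Finset.mem_filter, Finset.mem_univ, true_and, Finset.mem_union]
      tauto
    · rw [Finset.disjoint_left]
      intro x h5 h6
      simp only [Finset.mem_filter, Finset.mem_univ, true_and] at h5 h6
      exact h5.1 h6.1
  rw [Pi.add_apply] at h3
  omega

theorem cp_per {N Q L T O C : Type} [Fintype T] (W : Pm N Q L T O C) {x : ℕ} (hx : W.k₀ ≤ x)
    (j : ℕ) : W.K.cp (x + W.P * j) = W.K.cp x := by
  induction j with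
  | zero => simp
  | succ j ih =>
    have e1 : x + W.P * (j + 1) = (x + W.P * j) + W.P := by ring
    rw [e1, W.per _ (by omega), ih]

/-- (TR) compatible numbers -/
theorem pf_TR : Pool.Agent.H46.CH.T_TR := by
  intro N Q L T O C _ W
  refine ⟨?_, ?_, ?_, ?_, ?_⟩
  · intro s v n h
    exact h
  · intro s v k v' k' v'' h1 h2 n hn
    rw [← add_assoc]
    exact h2 _ (h1 _ hn)
  · rintro s v k n ⟨x, j, hv, hn, hj⟩
    exact ⟨x + k, j, by rw [W.K.cp_add, hv], by rw [hn]; ring, hj⟩
  · intro s v k v' j h hj n hn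
    obtain ⟨x, j', hv, hn', hj'⟩ := h n hn
    refine ⟨x, j' + j, hv, by rw [← add_assoc, hn']; ring, fun h0 => ?_⟩
    by_cases h1 : j = 0
    · exact hj' (by omega)
    · exact hj h1
  · rintro q z n ⟨x, j, hv, hn, hj⟩
    by_cases h0 : j = 0
    · rw [hn, h0, mul_zero, add_zero, hv]
    · obtain ⟨y, hy, hya⟩ := hj h0
      rw [hn, W.K.cp_add, ← hv, ← hya, ← W.K.cp_add, cp_per W hy]

end Pool.Agent.H76.CH
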