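import Pool.Agent.H46.CH.AT
import Pool.Agent.H49.VR.FB
import Pool.Agent.H8.VR.StepL
import Pool.Agent.H76.CH.PD

/-!
# One step is realised
-/

set_option autoImplicit false

namespace Pool.Agent.H76.CH

open Classical Pool.Agent.H8.VR Pool.Agent.H69.VR Pool.Agent.H46.CH

/-- (J1) one step is realised -/
theorem pf_J1 : Pool.Agent.H46.CH.T_J1 := by
  intro N Q L T O C _ _ _ _ _ W o τ m a b d a' b' d' hst X Y _ _ t u ha hb
  obtain ⟨h1, h2, h3, h4, h5⟩ := hst
  obtain ⟨r1, r2, r3, r4, r5⟩ := pf_TR N Q L T O C W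
  have hy0 : ∃ y0, u y0 = τ := by
    apply num_pos
    rw [← hb, ← h3, ind_pos rfl]
    omega
  obtain ⟨y0, hy0⟩ := hy0
  obtain ⟨g, hg⟩ := Pool.Agent.H49.VR.pf_FB X (Ix Q L T C) T Set.univ t m (fun σ => by
    rw [h1, ha]
    exact num_congr fun x => by simp)
  have hg' : ∀ σ θ, (num fun x => t x = σ ∧ g x = θ) = m (σ, θ) := fun σ θ => by
    rw [← hg (σ, θ)]
    exact num_congr fun x => by simp
  obtain ⟨u2, hu1, hu2⟩ : ∃ u2 : Y → Ix Q L T C, u2 y0 = nw W.S W.K τ m ∧
      ∀ y, y ≠ y0 → u2 y = u y :=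
    ⟨fun y => if y = y0 then nw W.S W.K τ m else u y, if_pos rfl, fun y h => if_neg h⟩
  refine ⟨fun x _ => g x, {y0}, fun x => up W.K τ (t x, g x), u2, ?_, ?_, ?_, ?_, ?_, ?_, ?_, ?_⟩
  · rintro x y hy
    rw [Set.mem_singleton_iff] at hy
    rw [hy, hy0]
    apply h2 (t x, g x)
    rw [← hg']
    intro h0
    unfold num at h0
    rw [Finset.card_eq_zero] at h0
    have : x ∈ (∅ : Finset X) := by
      rw [← h0]
      simp
    simp at this
  · intro x
    exact ⟨rfl, rfl⟩
  · intro y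
    by_cases hy : y = y0
    · rw [hy, hu1, hy0]
      exact ⟨rfl, rfl⟩
    · rw [hu2 y hy]
      exact ⟨rfl, rfl⟩
  · intro x z
    have e1 : (num fun y => y ∈ ({y0} : Set Y) ∧ (u y).2.1 = z.1 ∧ g x = z.2) =
        ind (τ.2.1 = z.1 ∧ g x = z.2) := by
      rw [num_single y0 (fun y => (u y).2.1 = z.1 ∧ g x = z.2), hy0]
    rw [e1]
    by_cases hz : τ.2.1 = z.1 ∧ g x = z.2
    · rw [ind_pos hz]
      have e2 : (up W.K τ (t x, g x)).2.2 z = W.K.ad ((t x).2.2 z) (W.K.cp 1) := by
        have e3 : z = (τ.2.1, g x) := Prod.ext hz.1.symm hz.2.symm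
        rw [e3]
        exact Function.update_self _ _ _
      rw [e2]
      exact r3 _ _ _
    · rw [ind_neg hz]
      have e2 : (up W.K τ (t x, g x)).2.2 z = (t x).2.2 z := by
        refine Function.update_of_ne (fun e3 => hz ?_) _ _
        rw [e3]
        exact ⟨rfl, rfl⟩
      rw [e2]
      exact r1 _ _
  · intro y hy z
    rw [Set.mem_singleton_iff] at hy
    rw [hy, hu1, hy0]
    have e1 : (num fun x => (t x).2.1 = z.1 ∧ W.S.sw (g x) = z.2) =
        fs (fun σ : Ix Q L T C => σ.2.1 = z.1) (fun σ => m (σ, W.S.sw z.2)) := by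
      have e2 := num_fib (fun x => W.S.sw (g x) = z.2) t (fun σ : Ix Q L T C => σ.2.1 = z.1)
      rw [show (num fun x => (t x).2.1 = z.1 ∧ W.S.sw (g x) = z.2) =
        num (fun x => W.S.sw (g x) = z.2 ∧ (t x).2.1 = z.1) from num_congr fun x => and_comm, e2]
      congr 1
      funext σ
      rw [← hg']
      refine num_congr fun x => ?_
      constructor
      · rintro ⟨e3, e4⟩
        exact ⟨e4, by rw [← e3, W.S.sw_sw]⟩
      · rintro ⟨e3, e4⟩
        exact ⟨by rw [e4, W.S.sw_sw], e3⟩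
    rw [e1]
    exact r3 _ _ _
  · intro σ
    rw [h4]
    have e2 := num_fib (fun _ : X => True) (fun x => (t x, g x)) (fun p => up W.K τ p = σ)
    rw [show (num fun x => up W.K τ (t x, g x) = σ) =
      num (fun x => True ∧ up W.K τ (t x, g x) = σ) from num_congr fun x => by simp, e2]
    congr 1
    funext p
    rw [show m p = m (p.1, p.2) from rfl, ← hg']
    refine num_congr fun x => ?_
    rw [true_and]
    constructor
    · rintro ⟨e3, e4⟩
      exact Prod.ext e3 e4
    · rintro rfl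
      exact ⟨rfl, rfl⟩
  · intro σ
    have e1 := num_insert ({y0}ᶜ : Set Y) y0 (by simp) (fun y => u y = σ)
    have e2 : (num fun y => y ∈ insert y0 ({y0}ᶜ : Set Y) ∧ u y = σ) = b σ := by
      rw [hb]
      refine num_congr fun y => ?_
      simp only [Set.mem_insert_iff, Set.mem_compl_iff, Set.mem_singleton_iff]
      tauto
    have e3 : (num fun y => y ∉ ({y0} : Set Y) ∧ u y = σ) =
        num fun y => y ∈ ({y0}ᶜ : Set Y) ∧ u y = σ := rfl
    have e4 : ind (u y0 = σ) = ind (σ = τ) := by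
      rw [hy0]
      exact ind_congr eq_comm
    have e5 := h3 σ
    rw [e3]
    omega
  · intro σ
    rw [num_single y0 (fun y => u2 y = σ), hu1]
    exact ind_congr eq_comm

end Pool.Agent.H76.CH
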