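import Pool.Agent.H76.CH.J1

/-!
# Composition of insertions
-/

set_option autoImplicit false

namespace Pool.Agent.H76.CH

open Classical Pool.Agent.H8.VR Pool.Agent.H69.VR Pool.Agent.H46.CH

theorem num_false {A : Type} [Fintype A] {P : A → Prop} (h : ∀ a, ¬ P a) : num P = 0 := by
  by_contra h0
  obtain ⟨a, ha⟩ := num_pos h0
  exact h a ha

theorem num_sub {A : Type} [Fintype A] (Z P : A → Prop) [Fintype {y // Z y}] :
    (num fun y : {y // Z y} => P y.1) = num fun y => Z y ∧ P y := by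
  unfold num
  rw [← Finset.card_map (Function.Embedding.subtype _)]
  congr 1
  ext y
  simp [and_comm]

/-- splitting of a number -/
theorem num_split {A : Type} [Fintype A] (Z P : A → Prop) :
    num P = (num fun y => Z y ∧ P y) + num fun y : {y // ¬ Z y} => P y.1 := by
  rw [num_sub (fun y => ¬ Z y) P]
  unfold num
  rw [← Finset.card_union_of_disjoint]
  · congr 1
    ext a
    simp only [Finset.mem_filter, Finset.mem_univ, true_and, Finset.mem_union]
    tauto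
  · rw [Finset.disjoint_left]
    intro a h5 h6
    simp only [Finset.mem_filter, Finset.mem_univ, true_and] at h5 h6
    exact h6.1 h5.1

/-- (J2) composition -/
theorem pf_J2 : Pool.Agent.H46.CH.T_J2 := by
  intro N Q L T O C _ _ _ _ hne W o a b a' b' e a'' b'' e'
  obtain ⟨r1, r2, r3, r4, r5⟩ := pf_TR N Q L T O C W
  constructor
  · intro X Y _ _ t u ha hb
    refine ⟨fun _ _ => Classical.arbitrary T, ∅, t, u, ?_, fun x => ⟨rfl, rfl⟩,
      fun y => ⟨rfl, rfl⟩, ?_, ?_, ha, ?_, ?_⟩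
    · intro x y hy
      exact absurd hy (Set.notMem_empty y)
    · intro x z
      rw [num_false (fun y h => Set.notMem_empty y h.1)]
      exact r1 _ _
    · intro y hy
      exact absurd hy (Set.notMem_empty y)
    · intro σ
      rw [hb]
      exact num_congr fun y => by simp
    · intro σ
      rw [num_false (fun y h => Set.notMem_empty y h.1)]
      rfl
  · intro hJ1 hJ2 X Y _ _ t u ha hb
    obtain ⟨h, I, t', u', p1, p2, p3, p4, p5, p6, p7, p8⟩ := hJ1 X Y t u ha hb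
    obtain ⟨h2, I2, t'', u2, q1, q2, q3, q4, q5, q6, q7, q8⟩ := hJ2 X {y : Y // ¬ y ∈ I} t'
      (fun y => u y.1) p6 (fun σ => by rw [p7, num_sub (fun y => ¬ y ∈ I) (fun y => u y = σ)])
    obtain ⟨H, hH1, hH2⟩ : ∃ H : X → Y → T, (∀ x, ∀ y ∈ I, H x y = h x y) ∧
        ∀ x (y : {y : Y // ¬ y ∈ I}), H x y.1 = h2 x y :=
      ⟨fun x y => if hy : y ∈ I then h x y else h2 x ⟨y, hy⟩, fun x y hy => dif_pos hy,
        fun x y => dif_neg y.2⟩
    obtain ⟨v, hv1, hv2⟩ : ∃ v : Y → Ix Q L T C, (∀ y ∈ I, v y = u' y) ∧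
        ∀ (y : {y : Y // ¬ y ∈ I}), v y.1 = u2 y :=
      ⟨fun y => if hy : y ∈ I then u' y else u2 ⟨y, hy⟩, fun y hy => dif_pos hy,
        fun y => dif_neg y.2⟩
    obtain ⟨J, hJa, hJb⟩ : ∃ J : Set Y, (∀ y ∈ I, y ∈ J) ∧
        ∀ (y : {y : Y // ¬ y ∈ I}), (y.1 ∈ J ↔ y ∈ I2) :=
      ⟨{y | ∀ hy : ¬ y ∈ I, (⟨y, hy⟩ : {y : Y // ¬ y ∈ I}) ∈ I2}, fun y hy h => absurd hy h,
        fun y => ⟨fun h => h y.2, fun h _ => h⟩⟩
    refine ⟨H, J, t'', v, ?_, fun x => ⟨(q2 x).1.trans (p2 x).1, (q2 x).2.trans (p2 x).2⟩,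
      ?_, ?_, ?_, q6, ?_, ?_⟩
    · intro x y hy
      by_cases hyI : y ∈ I
      · rw [hH1 x y hyI]
        exact p1 x y hyI
      · have e1 := q1 x ⟨y, hyI⟩ ((hJb ⟨y, hyI⟩).1 hy)
        rw [hH2 x ⟨y, hyI⟩, ← (p2 x).1]
        exact e1
    · intro y
      by_cases hyI : y ∈ I
      · rw [hv1 y hyI]
        exact p3 y
      · rw [hv2 ⟨y, hyI⟩]
        exact q3 ⟨y, hyI⟩
    · intro x z
      rw [num_split (fun y => y ∈ I) (fun y => y ∈ J ∧ (u y).2.1 = z.1 ∧ H x y = z.2)]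
      have e1 : (num fun y => y ∈ I ∧ y ∈ J ∧ (u y).2.1 = z.1 ∧ H x y = z.2) =
          num fun y => y ∈ I ∧ (u y).2.1 = z.1 ∧ h x y = z.2 := by
        refine num_congr fun y => ?_
        constructor
        · rintro ⟨a1, -, a2, a3⟩
          exact ⟨a1, a2, by rw [← hH1 x y a1]; exact a3⟩
        · rintro ⟨a1, a2, a3⟩
          exact ⟨a1, hJa y a1, a2, by rw [hH1 x y a1]; exact a3⟩
      have e2 : (num fun y : {y : Y // ¬ y ∈ I} => y.1 ∈ J ∧ (u y.1).2.1 = z.1 ∧
          H x y.1 = z.2) = num fun y => y ∈ I2 ∧ (u y.1).2.1 = z.1 ∧ h2 x y = z.2 :=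
        num_congr fun y => by rw [hH2 x y, hJb y]
      rw [e1, e2]
      refine r2 _ _ _ _ _ _ (p4 x z) ?_
      have e3 := q4 x z
      rw [(p2 x).1] at e3
      exact e3
    · intro y hy z
      by_cases hyI : y ∈ I
      · rw [hv1 y hyI]
        have e1 : (num fun x => (t x).2.1 = z.1 ∧ W.S.sw (H x y) = z.2) =
            num fun x => (t x).2.1 = z.1 ∧ W.S.sw (h x y) = z.2 :=
          num_congr fun x => by rw [hH1 x y hyI]
        rw [e1]
        exact p5 y hyI z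
      · rw [hv2 ⟨y, hyI⟩]
        have e1 : (num fun x => (t x).2.1 = z.1 ∧ W.S.sw (H x y) = z.2) =
            num fun x => (t' x).2.1 = z.1 ∧ W.S.sw (h2 x ⟨y, hyI⟩) = z.2 :=
          num_congr fun x => by rw [hH2 x ⟨y, hyI⟩, (p2 x).2]
        rw [e1]
        exact q5 ⟨y, hyI⟩ ((hJb ⟨y, hyI⟩).1 hy) z
    · intro σ
      have e1 : (num fun y => y ∈ I ∧ y ∉ J ∧ u y = σ) = 0 :=
        num_false fun y a1 => a1.2.1 (hJa y a1.1)
      rw [num_split (fun y => y ∈ I) (fun y => y ∉ J ∧ u y = σ), q7, e1, zero_add]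
      exact num_congr fun y => by rw [hJb y]
    · intro σ
      rw [num_split (fun y => y ∈ I) (fun y => y ∈ J ∧ v y = σ), Pi.add_apply, p8, q8]
      congr 1
      · refine num_congr fun y => ?_
        constructor
        · rintro ⟨a1, a2⟩
          exact ⟨a1, hJa y a1, by rw [hv1 y a1]; exact a2⟩
        · rintro ⟨a1, -, a2⟩
          exact ⟨a1, by rw [← hv1 y a1]; exact a2⟩
      · exact num_congr fun y => by rw [hJb y, hv2 y]

end Pool.Agent.H76.CH
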